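import Pool.Agent.Y742.HC.Stm

/-! Project HC of helper742: points of a scheme with values in extension fields give points of the
models of its function field with values in the same field. -/

set_option autoImplicit false

namespace Pool.Agent.Y780.HC

open MvPolynomial AlgebraicGeometry CategoryTheory W560.HP

/-- The algebraic core, for points with values in an extension field. -/
theorem coreL {k A F : Type} [Field k] [CommRing A] [IsDomain A] [Field F] [Algebra A F]
    [IsFractionRing A F] (φ : k →+* A) {N : ℕ} (f : Fin N → F) (G : MvPolynomial (Fin N) k)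
    (hG : eval₂ ((algebraMap A F).comp φ) f G ≠ 0) :
    ∃ b : A, b ≠ 0 ∧ ∀ (M : Type) [Field M] [Algebra k M] (ev : A →+* M),
      ev.comp φ = algebraMap k M → ev b ≠ 0 →
      ∃ c : Fin N → M,
        (∀ P : MvPolynomial (Fin N) k, eval₂ ((algebraMap A F).comp φ) f P = 0 → aeval c P = 0) ∧
        aeval c G ≠ 0 := by
  classical
  set y : F := (eval₂ ((algebraMap A F).comp φ) f G)⁻¹ with hy
  obtain ⟨⟨b, hb⟩, hbf⟩ := IsLocalization.exist_integer_multiples_of_finite (nonZeroDivisors A)
    (fun o : Option (Fin N) => Option.elim o y f)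
  have hb0 : b ≠ 0 := nonZeroDivisors.ne_zero hb
  refine ⟨b, hb0, ?_⟩
  intro M _ _ ev hev hevb
  have hinj : Function.Injective (algebraMap A F) := IsFractionRing.injective A F
  have hbF : algebraMap A F b ≠ 0 := by
    rw [Ne, map_eq_zero_iff _ hinj]; exact hb0
  choose a ha using fun o => hbf o
  let L := Localization.Away b
  let j : L →+* F := IsLocalization.Away.lift b (g := algebraMap A F) (IsUnit.mk0 _ hbF)
  let ψ : L →+* M := IsLocalization.Away.lift b (g := ev) (IsUnit.mk0 _ hevb)
  have hj : ∀ x : A, j (algebraMap A L x) = algebraMap A F x := fun x =>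
    IsLocalization.Away.lift_eq b _ x
  have hψ : ∀ x : A, ψ (algebraMap A L x) = ev x := fun x => IsLocalization.Away.lift_eq b _ x
  have hjinj : Function.Injective j := by
    have := IsLocalization.isDomain_localization (M := Submonoid.powers b)
      (powers_le_nonZeroDivisors_of_noZeroDivisors hb0)
    rw [injective_iff_map_eq_zero]
    intro z hz
    obtain ⟨⟨u, v⟩, huv⟩ := IsLocalization.surj (Submonoid.powers b) z
    have h1 : j (z * algebraMap A L v) = j (algebraMap A L u) := congrArg j huv
    rw [map_mul, hz, zero_mul, hj] at h1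
    have h2 : u = 0 := (map_eq_zero_iff _ hinj).mp h1.symm
    have h3 : z * algebraMap A L v = 0 := by
      rw [huv]; simp [h2]
    exact (IsUnit.mul_left_eq_zero (IsLocalization.map_units L v)).mp h3
  -- the lifts
  let t : Option (Fin N) → L := fun o =>
    algebraMap A L (a o) * IsLocalization.Away.invSelf (S := L) b
  have hinv : j (IsLocalization.Away.invSelf (S := L) b) = (algebraMap A F b)⁻¹ := by
    have h1 : algebraMap A L b * IsLocalization.Away.invSelf (S := L) b = 1 :=
      IsLocalization.Away.mul_invSelf b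
    have h2 := congrArg j h1
    rw [map_mul, hj, map_one] at h2
    exact eq_inv_of_mul_eq_one_right h2
  have ht : ∀ o, j (t o) = Option.elim o y f := by
    intro o
    have h1 := ha o
    simp only [Algebra.smul_def] at h1
    simp only [t, map_mul, hj, hinv, h1]
    field_simp
  let x : Fin N → L := fun l => t (some l)
  have hx : ∀ l, j (x l) = f l := fun l => ht (some l)
  have hjP : ∀ P : MvPolynomial (Fin N) k,
      j (eval₂ ((algebraMap A L).comp φ) x P) = eval₂ ((algebraMap A F).comp φ) f P := by
    intro P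
    rw [MvPolynomial.hom_eval₂]
    congr 1
    · ext z; exact hj _
    · funext l; exact hx l
  have hψP : ∀ P : MvPolynomial (Fin N) k,
      ψ (eval₂ ((algebraMap A L).comp φ) x P) = aeval (fun l => ψ (x l)) P := by
    intro P
    rw [MvPolynomial.hom_eval₂, MvPolynomial.aeval_def]
    congr 1
    ext z
    have := congrArg (fun g : k →+* M => g z) hev
    simp only [RingHom.comp_apply] at this
    simp only [RingHom.comp_apply, hψ, this]
  refine ⟨fun l => ψ (x l), fun P hP => ?_, fun h0 => ?_⟩
  · have h0 : eval₂ ((algebraMap A L).comp φ) x P = 0 := hjinj (by rw [hjP, hP, map_zero])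
    rw [← hψP, h0, map_zero]
  · have h1 : eval₂ ((algebraMap A L).comp φ) x G * t none = 1 := by
      apply hjinj
      rw [map_mul, hjP, ht none, map_one]
      exact mul_inv_cancel₀ hG
    have h2 := congrArg ψ h1
    rw [map_mul, hψP, h0, zero_mul, map_one] at h2
    exact zero_ne_one h2

theorem pts_openL (k : Type) [Field k] (X : Scheme.{0}) (p : X ⟶ Spec (CommRingCat.of k))
    [IsIntegral X] [LocallyOfFiniteType p] (K : Type) [Field K] [Algebra k K]
    (he : ∃ e : X.functionField ≃+* K, ∀ a : k, e (toFF k X p a) = algebraMap k K a)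
    (N : ℕ) (x : Fin N → K) (G : MvPolynomial (Fin N) k) (hG : aeval x G ≠ 0) :
    ∃ V : X.Opens, genericPoint X ∈ V ∧ ∀ (L : Type) [Field L] [Algebra k L]
      (s : Spec (CommRingCat.of L) ⟶ X),
      s ≫ p = Spec.map (CommRingCat.ofHom (algebraMap k L)) →
      (∃ z ∈ V, z ∈ Set.range s.base) →
      ∃ c : Fin N → L, (∀ P : MvPolynomial (Fin N) k, aeval x P = 0 → aeval c P = 0) ∧
        aeval c G ≠ 0 := by
  obtain ⟨e, he⟩ := he
  obtain ⟨_, ⟨U, hU, rfl⟩, hxU, -⟩ :=
    X.isBasis_affineOpens.exists_subset_of_mem_open (Set.mem_univ (genericPoint X)) isOpen_univ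
  have : Nonempty U := ⟨⟨_, hxU⟩⟩
  have := functionField_isFractionRing_of_isAffineOpen X U hU
  have hdom : IsDomain Γ(X, U) := inferInstance
  let φ : k →+* Γ(X, U) := (p.appLE ⊤ U le_top).hom.comp (Scheme.ΓSpecIso (CommRingCat.of k)).inv.hom
  have hφ : (algebraMap Γ(X, U) X.functionField).comp φ = toFF k X p := by
    ext a
    simp only [φ, toFF, RingHom.comp_apply]
    exact X.presheaf.germ_res_apply (homOfLE (le_top : U ≤ ⊤)) (genericPoint X) hxU
      (p.appTop.hom ((Scheme.ΓSpecIso (CommRingCat.of k)).inv.hom a))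
  have hkey : ∀ P : MvPolynomial (Fin N) k,
      e (eval₂ ((algebraMap Γ(X, U) X.functionField).comp φ) (fun l => e.symm (x l)) P) =
        aeval x P := by
    intro P
    rw [hφ]
    have h1 := MvPolynomial.hom_eval₂ P (toFF k X p) (e : X.functionField →+* K)
      (fun l => e.symm (x l))
    refine h1.trans ?_
    rw [aeval_def]
    congr 1
    · ext a; exact he a
    · funext l; exact e.apply_symm_apply _
  obtain ⟨b, hb0, hb⟩ := coreL φ (fun l => e.symm (x l)) G (by
    intro h
    apply hG
    rw [← hkey, h, map_zero])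
  have hgen : genericPoint X ∈ X.basicOpen b := by
    rw [Scheme.mem_basicOpen X b (genericPoint X) hxU]
    refine (isUnit_iff_ne_zero (G₀ := X.functionField)).mpr fun h => hb0 ?_
    exact Scheme.germToFunctionField_injective X U (h.trans (map_zero _).symm)
  refine ⟨X.basicOpen b, hgen, ?_⟩
  rintro L _ _ s hs ⟨z, hz, w, hw⟩
  have hsub : (⊤ : (Spec (CommRingCat.of L)).Opens) ≤ s ⁻¹ᵁ (X.basicOpen b) := by
    intro v _
    have hvw : v = w := Subsingleton.elim (α := PrimeSpectrum L) v w
    rw [hvw]
    change s.base w ∈ X.basicOpen b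
    exact hw ▸ hz
  have hsubU : (⊤ : (Spec (CommRingCat.of L)).Opens) ≤ s ⁻¹ᵁ U :=
    hsub.trans (s.preimage_mono (X.basicOpen_le b))
  let ev : Γ(X, U) →+* L := (Scheme.ΓSpecIso (CommRingCat.of L)).hom.hom.comp (s.appLE U ⊤ hsubU).hom
  have h1 : ev.comp φ = algebraMap k L := by
    have h2 : (Scheme.ΓSpecIso (CommRingCat.of k)).inv ≫ p.appLE ⊤ U le_top ≫
        s.appLE U ⊤ hsubU ≫ (Scheme.ΓSpecIso (CommRingCat.of L)).hom =
          CommRingCat.ofHom (algebraMap k L) := by
      have h7 : ∀ (g : Spec (CommRingCat.of L) ⟶ Spec (CommRingCat.of k)),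
          g = Spec.map (CommRingCat.ofHom (algebraMap k L)) →
          ∀ h, g.appLE ⊤ ⊤ h = (Spec.map (CommRingCat.ofHom (algebraMap k L))).appTop := by
        rintro _ rfl h
        simp [Scheme.Hom.appLE]
      rw [Scheme.Hom.appLE_comp_appLE_assoc, h7 _ hs, Scheme.ΓSpecIso_naturality,
        Iso.inv_hom_id_assoc]
    ext a
    exact congrArg (fun g => g.hom a) h2
  have h2 : ev b ≠ 0 := by
    have h3 : IsUnit ((X.presheaf.map (homOfLE (X.basicOpen_le b)).op).hom b) :=
      X.toRingedSpace.isUnit_res_basicOpen b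
    have h4 : X.presheaf.map (homOfLE (X.basicOpen_le b)).op ≫ s.appLE (X.basicOpen b) ⊤ hsub =
        s.appLE U ⊤ hsubU := by
      rw [Scheme.Hom.map_appLE]
    have h5 : ev b = (Scheme.ΓSpecIso (CommRingCat.of L)).hom.hom
        ((s.appLE (X.basicOpen b) ⊤ hsub).hom
          ((X.presheaf.map (homOfLE (X.basicOpen_le b)).op).hom b)) := by
      have h6 := congrArg (fun g => g.hom b) h4
      exact congrArg (Scheme.ΓSpecIso (CommRingCat.of L)).hom.hom h6.symm
    rw [h5]
    exact ((h3.map (s.appLE (X.basicOpen b) ⊤ hsub).hom).map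
      (Scheme.ΓSpecIso (CommRingCat.of L)).hom.hom).ne_zero
  obtain ⟨c, hc1, hc2⟩ := hb L ev h1 h2
  refine ⟨c, fun P hP => hc1 P ?_, hc2⟩
  have h1 := hkey P
  rw [hP] at h1
  exact e.injective (h1.trans (map_zero e).symm)

end Pool.Agent.Y780.HC
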