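import Pool.Agent.Y742.HC.Stm

/-! Project HC of helper742, job PTS: a scheme with dense `k`-points has `k`-points in every model
of its function field. -/

set_option autoImplicit false

namespace Pool.Agent.Y780.HC

open MvPolynomial AlgebraicGeometry CategoryTheory W560.HP Pool.Agent.Y742.HC

/-- The algebraic core. -/
theorem core {k A F : Type} [Field k] [CommRing A] [IsDomain A] [Field F] [Algebra A F]
    [IsFractionRing A F] (φ : k →+* A) {N : ℕ} (f : Fin N → F) (G : MvPolynomial (Fin N) k)
    (hG : eval₂ ((algebraMap A F).comp φ) f G ≠ 0) :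
    ∃ b : A, b ≠ 0 ∧ ∀ ev : A →+* k, ev.comp φ = RingHom.id k → ev b ≠ 0 →
      ∃ c : Fin N → k,
        (∀ P : MvPolynomial (Fin N) k, eval₂ ((algebraMap A F).comp φ) f P = 0 → eval c P = 0) ∧
        eval c G ≠ 0 := by
  classical
  set y : F := (eval₂ ((algebraMap A F).comp φ) f G)⁻¹ with hy
  obtain ⟨⟨b, hb⟩, hbf⟩ := IsLocalization.exist_integer_multiples_of_finite (nonZeroDivisors A)
    (fun o : Option (Fin N) => Option.elim o y f)
  have hb0 : b ≠ 0 := nonZeroDivisors.ne_zero hb
  refine ⟨b, hb0, fun ev hev hevb => ?_⟩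
  have hinj : Function.Injective (algebraMap A F) := IsFractionRing.injective A F
  have hbF : algebraMap A F b ≠ 0 := by
    rw [Ne, map_eq_zero_iff _ hinj]; exact hb0
  choose a ha using fun o => hbf o
  let L := Localization.Away b
  let j : L →+* F := IsLocalization.Away.lift b (g := algebraMap A F) (IsUnit.mk0 _ hbF)
  let ψ : L →+* k := IsLocalization.Away.lift b (g := ev) (IsUnit.mk0 _ hevb)
  have hj : ∀ x : A, j (algebraMap A L x) = algebraMap A F x := fun x =>
    IsLocalization.Away.lift_eq b _ x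
  have hψ : ∀ x : A, ψ (algebraMap A L x) = ev x := fun x => IsLocalization.Away.lift_eq b _ x
  have hjinj : Function.Injective j := by
    have := IsLocalization.isDomain_localization (M := Submonoid.powers b)
      (powers_le_nonZeroDivisors_of_noZeroDivisors hb0)
    rw [injective_iff_map_eq_zero]
    intro z hz
    obtain ⟨⟨u, v⟩, huv⟩ := IsLocalization.surj (Submonoid.powers b) z
    have h1 : j (z * algebraMap A L v) = j (algebraMap A L u) := congrArg j huv
    rw [map_mul, hz, zero_mul, hj] at h1
    have h2 : u = 0 := (map_eq_zero_iff _ hinj).mp h1.symm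
    have h3 : z * algebraMap A L v = 0 := by
      rw [huv]; simp [h2]
    exact (IsUnit.mul_left_eq_zero (IsLocalization.map_units L v)).mp h3
  -- the lifts
  let t : Option (Fin N) → L := fun o =>
    algebraMap A L (a o) * IsLocalization.Away.invSelf (S := L) b
  have hinv : j (IsLocalization.Away.invSelf (S := L) b) = (algebraMap A F b)⁻¹ := by
    have h1 : algebraMap A L b * IsLocalization.Away.invSelf (S := L) b = 1 :=
      IsLocalization.Away.mul_invSelf b
    have h2 := congrArg j h1
    rw [map_mul, hj, map_one] at h2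
    exact eq_inv_of_mul_eq_one_right h2
  have ht : ∀ o, j (t o) = Option.elim o y f := by
    intro o
    have h1 := ha o
    simp only [Algebra.smul_def] at h1
    simp only [t, map_mul, hj, hinv, h1]
    field_simp
  let x : Fin N → L := fun l => t (some l)
  have hx : ∀ l, j (x l) = f l := fun l => ht (some l)
  have hjP : ∀ P : MvPolynomial (Fin N) k,
      j (eval₂ ((algebraMap A L).comp φ) x P) = eval₂ ((algebraMap A F).comp φ) f P := by
    intro P
    rw [MvPolynomial.hom_eval₂]
    congr 1
    · ext z; exact hj _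
    · funext l; exact hx l
  have hψP : ∀ P : MvPolynomial (Fin N) k,
      ψ (eval₂ ((algebraMap A L).comp φ) x P) = eval (fun l => ψ (x l)) P := by
    intro P
    rw [MvPolynomial.hom_eval₂, MvPolynomial.eval, MvPolynomial.coe_eval₂Hom]
    congr 1
    ext z
    have := congrArg (fun g : k →+* k => g z) hev
    simp only [RingHom.comp_apply, RingHom.id_apply] at this
    simp only [RingHom.comp_apply, hψ, this, RingHom.id_apply]
  refine ⟨fun l => ψ (x l), fun P hP => ?_, fun h0 => ?_⟩
  · have h0 : eval₂ ((algebraMap A L).comp φ) x P = 0 := hjinj (by rw [hjP, hP, map_zero])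
    rw [← hψP, h0, map_zero]
  · have h1 : eval₂ ((algebraMap A L).comp φ) x G * t none = 1 := by
      apply hjinj
      rw [map_mul, hjP, ht none, map_one]
      exact mul_inv_cancel₀ hG
    have h2 := congrArg ψ h1
    rw [map_mul, hψP, h0, zero_mul, map_one] at h2
    exact zero_ne_one h2

theorem sPts : SPts := by
  intro k _ X p _ _ K _ _ he hd N x G hG
  obtain ⟨e, he⟩ := he
  obtain ⟨_, ⟨U, hU, rfl⟩, hxU, -⟩ :=
    X.isBasis_affineOpens.exists_subset_of_mem_open (Set.mem_univ (genericPoint X)) isOpen_univ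
  have : Nonempty U := ⟨⟨_, hxU⟩⟩
  have := functionField_isFractionRing_of_isAffineOpen X U hU
  have hdom : IsDomain Γ(X, U) := inferInstance
  let φ : k →+* Γ(X, U) := (p.appLE ⊤ U le_top).hom.comp (Scheme.ΓSpecIso (CommRingCat.of k)).inv.hom
  have hφ : (algebraMap Γ(X, U) X.functionField).comp φ = toFF k X p := by
    ext a
    simp only [φ, toFF, RingHom.comp_apply]
    exact X.presheaf.germ_res_apply (homOfLE (le_top : U ≤ ⊤)) (genericPoint X) hxU
      (p.appTop.hom ((Scheme.ΓSpecIso (CommRingCat.of k)).inv.hom a))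
  have hkey : ∀ P : MvPolynomial (Fin N) k,
      e (eval₂ ((algebraMap Γ(X, U) X.functionField).comp φ) (fun l => e.symm (x l)) P) =
        aeval x P := by
    intro P
    rw [hφ]
    have h1 := MvPolynomial.hom_eval₂ P (toFF k X p) (e : X.functionField →+* K)
      (fun l => e.symm (x l))
    refine h1.trans ?_
    rw [aeval_def]
    congr 1
    · ext a; exact he a
    · funext l; exact e.apply_symm_apply _
  obtain ⟨b, hb0, hb⟩ := core φ (fun l => e.symm (x l)) G (by
    intro h
    apply hG
    rw [← hkey, h, map_zero])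
  have hgen : genericPoint X ∈ X.basicOpen b := by
    rw [Scheme.mem_basicOpen X b (genericPoint X) hxU]
    refine (isUnit_iff_ne_zero (G₀ := X.functionField)).mpr fun h => hb0 ?_
    exact Scheme.germToFunctionField_injective X U (h.trans (map_zero _).symm)
  obtain ⟨z, hz, s, hs, w, hw⟩ := hd.inter_open_nonempty (X.basicOpen b) (X.basicOpen b).isOpen
    ⟨_, hgen⟩
  have hsub : (⊤ : (Spec (CommRingCat.of k)).Opens) ≤ s ⁻¹ᵁ (X.basicOpen b) := by
    intro v _
    have hvw : v = w := Subsingleton.elim (α := PrimeSpectrum k) v w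
    rw [hvw]
    change s.base w ∈ X.basicOpen b
    exact hw ▸ hz
  have hsubU : (⊤ : (Spec (CommRingCat.of k)).Opens) ≤ s ⁻¹ᵁ U :=
    hsub.trans (s.preimage_mono (X.basicOpen_le b))
  let ev : Γ(X, U) →+* k := (Scheme.ΓSpecIso (CommRingCat.of k)).hom.hom.comp (s.appLE U ⊤ hsubU).hom
  have h1 : ev.comp φ = RingHom.id k := by
    have h2 : (Scheme.ΓSpecIso (CommRingCat.of k)).inv ≫ p.appLE ⊤ U le_top ≫
        s.appLE U ⊤ hsubU ≫ (Scheme.ΓSpecIso (CommRingCat.of k)).hom = 𝟙 _ := by
      have h7 : ∀ (g : Spec (CommRingCat.of k) ⟶ Spec (CommRingCat.of k)), g = 𝟙 _ →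
          ∀ h, g.appLE ⊤ ⊤ h = 𝟙 _ := by
        rintro _ rfl h
        simp [Scheme.Hom.appLE]
      rw [Scheme.Hom.appLE_comp_appLE_assoc, h7 _ hs, Category.id_comp, Iso.inv_hom_id]
    ext a
    exact congrArg (fun g => g.hom a) h2
  have h2 : ev b ≠ 0 := by
    have h3 : IsUnit ((X.presheaf.map (homOfLE (X.basicOpen_le b)).op).hom b) :=
      X.toRingedSpace.isUnit_res_basicOpen b
    have h4 : X.presheaf.map (homOfLE (X.basicOpen_le b)).op ≫ s.appLE (X.basicOpen b) ⊤ hsub =
        s.appLE U ⊤ hsubU := by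
      rw [Scheme.Hom.map_appLE]
    have h5 : ev b = (Scheme.ΓSpecIso (CommRingCat.of k)).hom.hom
        ((s.appLE (X.basicOpen b) ⊤ hsub).hom
          ((X.presheaf.map (homOfLE (X.basicOpen_le b)).op).hom b)) := by
      have h6 := congrArg (fun g => g.hom b) h4
      exact congrArg (Scheme.ΓSpecIso (CommRingCat.of k)).hom.hom h6.symm
    rw [h5]
    exact ((h3.map (s.appLE (X.basicOpen b) ⊤ hsub).hom).map
      (Scheme.ΓSpecIso (CommRingCat.of k)).hom.hom).ne_zero
  obtain ⟨c, hc1, hc2⟩ := hb ev h1 h2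
  refine ⟨c, fun P hP => hc1 P ?_, hc2⟩
  have h1 := hkey P
  rw [hP] at h1
  exact e.injective (h1.trans (map_zero e).symm)

end Pool.Agent.Y780.HC
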